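import Pool.Agent.Lib.MP_b07157_agQU.Fam3

/-!
# Quartic polynomials with triple points: definitions
-/

noncomputable section

namespace MPb07157

open MvPolynomial

namespace QU

/-- The quartic form with the coefficients `b_j` of `y^j z^(4-j)`, `a_j` of `x y^j z^(3-j)`, `e_j` of
`x^2 y^j z^(2-j)`, `l_0` of `x^3 z`, `l_1` of `x^3 y`, `k` of `x^4`. -/
def qf (b0 b1 b2 b3 b4 a0 a1 a2 a3 e0 e1 e2 l0 l1 k : ℂ) : MvPolynomial (Fin 3) ℂ :=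
  C b0 * X 2 ^ 4 + C b1 * (X 1 * X 2 ^ 3) + C b2 * (X 1 ^ 2 * X 2 ^ 2) + C b3 * (X 1 ^ 3 * X 2) +
    C b4 * X 1 ^ 4 + C a0 * (X 0 * X 2 ^ 3) + C a1 * (X 0 * (X 1 * X 2 ^ 2)) +
    C a2 * (X 0 * (X 1 ^ 2 * X 2)) + C a3 * (X 0 * X 1 ^ 3) + C e0 * (X 0 ^ 2 * X 2 ^ 2) +
    C e1 * (X 0 ^ 2 * (X 1 * X 2)) + C e2 * (X 0 ^ 2 * X 1 ^ 2) + C l0 * (X 0 ^ 3 * X 2) +
    C l1 * (X 0 ^ 3 * X 1) + C k * X 0 ^ 4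

/-- The binary quartic form `∑ c_j u^j v^(4-j)` has no critical point with `u, v ≠ 0`, or is zero. -/
def ND4 (c0 c1 c2 c3 c4 : ℂ) : Prop :=
  ∀ u v : ℂ, u ≠ 0 → v ≠ 0 →
    c1 * (u * v ^ 3) + 2 * (c2 * (u ^ 2 * v ^ 2)) + 3 * (c3 * (u ^ 3 * v)) + 4 * (c4 * u ^ 4) = 0 →
    4 * (c0 * v ^ 4) + 3 * (c1 * (u * v ^ 3)) + 2 * (c2 * (u ^ 2 * v ^ 2)) + c3 * (u ^ 3 * v) = 0 →
    c0 = 0 ∧ c1 = 0 ∧ c2 = 0 ∧ c3 = 0 ∧ c4 = 0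

/-- The binary cubic form `∑ c_j u^j v^(3-j)` has no critical point with `u, v ≠ 0`, or is zero. -/
def ND3 (c0 c1 c2 c3 : ℂ) : Prop :=
  ∀ u v : ℂ, u ≠ 0 → v ≠ 0 →
    c1 * (u * v ^ 2) + 2 * (c2 * (u ^ 2 * v)) + 3 * (c3 * u ^ 3) = 0 →
    3 * (c0 * v ^ 3) + 2 * (c1 * (u * v ^ 2)) + c2 * (u ^ 2 * v) = 0 →
    c0 = 0 ∧ c1 = 0 ∧ c2 = 0 ∧ c3 = 0

end QU

end MPb07157
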