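import Pool.Agent.Lib.MP_b07157_agQU.X5
import Pool.Agent.Lib.MP_b07157_agQU.Defs
import Pool.Agent.Lib.MP_b07157_agS.SMain
import Pool.Agent.Lib.MP_b07157_agM.IFT

/-!
# The exceptional types
-/

noncomputable section

namespace MPb07157

open MvPolynomial

namespace QU

/-- A polynomial change of coordinates with invertible linear part. -/
theorem smcLoc_aeval {n : ℕ} {p : Fin n → MvPolynomial (Fin n) ℂ} (hc0 : ∀ i, coeff 0 (p i) = 0)
    (hdet : (Matrix.of fun i j => coeff (Finsupp.single j 1) (p i)).det ≠ 0)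
    {G : MvPolynomial (Fin n) ℂ} (hG : SmcLoc G) : SmcLoc (aeval p G) := by
  classical
  obtain ⟨E, hE⟩ := IFT.exists_equiv (a := fun i => (p i : MvPowerSeries (Fin n) ℂ))
    (fun i => by
      rw [← MvPowerSeries.coeff_zero_eq_constantCoeff_apply, MvPolynomial.coeff_coe, hc0])
    (by
      have : (Matrix.of fun i j => MvPowerSeries.coeff (Finsupp.single j 1)
          (p i : MvPowerSeries (Fin n) ℂ)) =
          (Matrix.of fun i j => coeff (Finsupp.single j 1) (p i)) := by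
        ext i j
        rw [Matrix.of_apply, Matrix.of_apply, MvPolynomial.coeff_coe]
      rw [this]
      exact hdet)
  refine SmcLoc.of_formEquivPow one_pos ⟨E, 1, ?_⟩ hG
  rw [pow_one, Units.val_one, one_mul, hE]
  have h : (aeval (fun i => (p i : MvPowerSeries (Fin n) ℂ)) :
      MvPolynomial (Fin n) ℂ →ₐ[ℂ] MvPowerSeries (Fin n) ℂ) =
      (MvPolynomial.coeToMvPowerSeries.algHom ℂ).comp (aeval p) := by
    apply MvPolynomial.algHom_ext
    intro i
    rw [AlgHom.comp_apply, aeval_X, aeval_X, MvPolynomial.coeToMvPowerSeries.algHom_apply]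
    rfl
  rw [h, AlgHom.comp_apply, MvPolynomial.coeToMvPowerSeries.algHom_apply]
  rfl

/-- The automorphism `s → (u + v) / 2 + i P`, `t → (u - v) / (2 i)`, `P = α y^2 + β x z`. -/
def xp (α β : ℂ) : Fin 5 → MvPolynomial (Fin 5) ℂ :=
  ![X 0, X 1, X 2, C (1 / 2) * X 3 + C (1 / 2) * X 4 + C Complex.I * (C α * X 1 ^ 2 + C β * (X 0 * X 2)),
    C (-Complex.I / 2) * X 3 + C (Complex.I / 2) * X 4]

theorem smcLoc_xp (α β : ℂ) {G : MvPolynomial (Fin 5) ℂ} (hG : SmcLoc G) :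
    SmcLoc (aeval (xp α β) G) := by
  refine smcLoc_aeval ?_ ?_ hG
  · intro i
    rw [← constantCoeff_eq]
    fin_cases i <;> simp [xp]
  · have hco : ∀ i j : Fin 5, coeff (Finsupp.single j 1) (xp α β i) =
        !![1, 0, 0, 0, 0; 0, 1, 0, 0, 0; 0, 0, 1, 0, 0; 0, 0, 0, 1 / 2, 1 / 2;
          0, 0, 0, -Complex.I / 2, Complex.I / 2] i j := by
      intro i j
      have h1 : coeff (Finsupp.single j 1) (xp α β i) = constantCoeff (pderiv j (xp α β i)) := by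
        rw [constantCoeff_eq, coeff_pderiv]
        simp
      rw [h1]
      fin_cases j <;> fin_cases i <;> simp [xp, pderiv_X]
    have hm : (Matrix.of fun i j => coeff (Finsupp.single j 1) (xp α β i)) =
        !![1, 0, 0, 0, 0; 0, 1, 0, 0, 0; 0, 0, 1, 0, 0; 0, 0, 0, 1 / 2, 1 / 2;
          0, 0, 0, -Complex.I / 2, Complex.I / 2] := by
      ext i j
      rw [Matrix.of_apply, hco]
    rw [hm]
    simp [Matrix.det_succ_row_zero, Fin.sum_univ_succ, Fin.succAbove]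
    intro h3
    exact Complex.I_ne_zero (by linear_combination 2 * h3)

theorem exc_sqrt {b4 a2 e0 : ℂ} (hb4 : b4 ≠ 0) (he0 : e0 ≠ 0) (h : a2 ^ 2 = 4 * e0 * b4) :
    ∃ α β : ℂ, α ≠ 0 ∧ β ≠ 0 ∧ α ^ 2 = b4 ∧ 2 * α * β = a2 ∧ β ^ 2 = e0 := by
  obtain ⟨α, hα⟩ := IsAlgClosed.exists_pow_nat_eq b4 (n := 2) (by norm_num)
  have hα0 : α ≠ 0 := by
    rintro rfl
    exact hb4 (by rw [← hα]; norm_num)
  have h2 : (a2 / (2 * α)) ^ 2 = e0 := by
    rw [div_pow, h, ← hα]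
    field_simp
    try ring
  refine ⟨α, a2 / (2 * α), hα0, ?_, hα, by field_simp, h2⟩
  intro h3
  rw [h3] at h2
  exact he0 (by rw [← h2]; norm_num)

/-- The exceptional type `c = x^2 y`. -/
theorem smcLoc_XI (b4 a2 a3 e0 e1 e2 l1 k : ℂ) (hb4 : b4 ≠ 0) (he0 : e0 ≠ 0)
    (h : a2 ^ 2 = 4 * e0 * b4) :
    SmcLoc (X 0 ^ 2 * X 1 + qf 0 0 0 0 b4 0 0 a2 a3 e0 e1 e2 0 l1 k) := by
  obtain ⟨α, β, hα, hβ, rfl, rfl, rfl⟩ := exc_sqrt hb4 he0 h
  refine SmcLoc.of_stab ?_ ?_ ?_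
  · intro h0
    have h1 := congrArg (eval ![0, 1, 0]) h0
    simp [qf] at h1
    exact hα h1
  · rw [← constantCoeff_eq]
    simp [qf]
  · have h1 := smcLoc_xp α β (nd_XI (α := -2 * Complex.I * α) (β := -2 * Complex.I * β)
      (a3 := a3) (e1 := e1) (e2 := e2) (l1 := l1) (k0 := k) (by simp [hα]) (by simp [hβ]))
    convert h1 using 1
    refine MvPolynomial.funext fun w => ?_
    simp [stab, xp, qf]
    linear_combination ((α * w 1 ^ 2 + β * (w 0 * w 2)) ^ 2 - (w 4 - w 3) ^ 2 / 4) * Complex.I_sq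

/-- The exceptional type `c = x^3`. -/
theorem smcLoc_XII (b4 a2 e0 e1 e2 l0 l1 k : ℂ) (hb4 : b4 ≠ 0) (he0 : e0 ≠ 0)
    (h : a2 ^ 2 = 4 * e0 * b4) :
    SmcLoc (X 0 ^ 3 + qf 0 0 0 0 b4 0 0 a2 0 e0 e1 e2 l0 l1 k) := by
  obtain ⟨α, β, hα, hβ, rfl, rfl, rfl⟩ := exc_sqrt hb4 he0 h
  refine SmcLoc.of_stab ?_ ?_ ?_
  · intro h0
    have h1 := congrArg (eval ![0, 1, 0]) h0
    simp [qf] at h1
    exact hα h1
  · rw [← constantCoeff_eq]
    simp [qf]
  · have h1 := smcLoc_xp α β (nd_XII (α := -2 * Complex.I * α) (β := -2 * Complex.I * β)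
      (e1 := e1) (e2 := e2) (l0 := l0) (l1 := l1) (k0 := k) (by simp [hα]) (by simp [hβ]))
    convert h1 using 1
    refine MvPolynomial.funext fun w => ?_
    simp [stab, xp, qf]
    linear_combination ((α * w 1 ^ 2 + β * (w 0 * w 2)) ^ 2 - (w 4 - w 3) ^ 2 / 4) * Complex.I_sq

end QU

end MPb07157
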