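import Pool.Agent.Lib.MP_b07157_agQU.Defs

/-!
# Binary forms of degree four and three: shifts
-/

noncomputable section

namespace MPb07157

open MvPolynomial

namespace QU

/-- Shift `v → v + t u` of `∑ c_j u^j v^(4-j)`. Put `h t = c4 + c3 t + c2 t^2 + c1 t^3 + c0 t^4`. If
some `t` has `h t = h' t = 0`, take it (the shifted `c3'`, `c4'` are `h' t`, `h t`): a critical point
`(u, v)` with `u, v ≠ 0` of `v^2 (c0 v^2 + c1' u v + c2' u^2)` gives, after division by `v`,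
`c1' v + 2 c2' u = 0` and `4 c0 v^2 + 3 c1' u v + 2 c2' u^2 = 0`, so `2 c0 v + c1' u = 0`: if `c0 = 0`
all vanish; if `c0 ≠ 0` then `c1' ≠ 0` or `c1' = c2' = c0 = 0`, and `c1'^2 = 4 c0 c2'`. If no `t` has
`h t = h' t = 0`, take `t = 0`: a critical point `(u, v)`, `u ≠ 0`, gives `t = v / u` with
`h' t = 0` and (Euler) `h t = 0`. -/
theorem exists_nd4 (c0 c1 c2 c3 c4 : ℂ) : ∃ t : ℂ,
    ND4 c0 (c1 + 4 * c0 * t) (c2 + 3 * c1 * t + 6 * c0 * t ^ 2)
      (c3 + 2 * c2 * t + 3 * c1 * t ^ 2 + 4 * c0 * t ^ 3)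
      (c4 + c3 * t + c2 * t ^ 2 + c1 * t ^ 3 + c0 * t ^ 4) ∨
    (c0 ≠ 0 ∧ c1 + 4 * c0 * t ≠ 0 ∧
      (c1 + 4 * c0 * t) ^ 2 = 4 * c0 * (c2 + 3 * c1 * t + 6 * c0 * t ^ 2) ∧
      c3 + 2 * c2 * t + 3 * c1 * t ^ 2 + 4 * c0 * t ^ 3 = 0 ∧
      c4 + c3 * t + c2 * t ^ 2 + c1 * t ^ 3 + c0 * t ^ 4 = 0) := by
  by_cases hex : ∃ t : ℂ, c4 + c3 * t + c2 * t ^ 2 + c1 * t ^ 3 + c0 * t ^ 4 = 0 ∧
      c3 + 2 * c2 * t + 3 * c1 * t ^ 2 + 4 * c0 * t ^ 3 = 0
  · obtain ⟨t, h4, h3⟩ := hex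
    refine ⟨t, ?_⟩
    rw [h4, h3]
    generalize c1 + 4 * c0 * t = d1
    generalize c2 + 3 * c1 * t + 6 * c0 * t ^ 2 = d2
    by_cases hs : c0 ≠ 0 ∧ d1 ≠ 0 ∧ d1 ^ 2 = 4 * c0 * d2
    · exact Or.inr ⟨hs.1, hs.2.1, hs.2.2, rfl, rfl⟩
    · refine Or.inl fun u v hu hv h1 h2 => ?_
      have e1 : d1 * v + 2 * d2 * u = 0 := by
        have : u * v ^ 2 * (d1 * v + 2 * d2 * u) = 0 := by linear_combination h1
        exact (mul_eq_zero.1 this).resolve_left (mul_ne_zero hu (pow_ne_zero 2 hv))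
      have e2 : 2 * c0 * v + d1 * u = 0 := by
        have : 2 * v ^ 3 * (2 * c0 * v + d1 * u) = 0 := by
          linear_combination h2 - u * v ^ 2 * e1
        exact (mul_eq_zero.1 this).resolve_left (mul_ne_zero two_ne_zero (pow_ne_zero 3 hv))
      by_cases hc0 : c0 = 0
      · have hd1 : d1 = 0 := by
          rw [hc0] at e2
          have : d1 * u = 0 := by linear_combination e2
          exact (mul_eq_zero.1 this).resolve_right hu
        have hd2 : d2 = 0 := by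
          rw [hd1] at e1
          have : d2 * (2 * u) = 0 := by linear_combination e1
          exact (mul_eq_zero.1 this).resolve_right (mul_ne_zero two_ne_zero hu)
        exact ⟨hc0, hd1, hd2, rfl, rfl⟩
      · exfalso
        apply hs
        refine ⟨hc0, fun hd1 => ?_, ?_⟩
        · rw [hd1, zero_mul, add_zero] at e2
          exact mul_ne_zero (mul_ne_zero two_ne_zero hc0) hv e2
        · have : u * v * (d1 ^ 2 - 4 * c0 * d2) = 0 := by
            linear_combination d1 * u * e1 - 2 * d2 * u * e2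
          have h5 := (mul_eq_zero.1 this).resolve_left (mul_ne_zero hu hv)
          linear_combination h5
  · refine ⟨0, Or.inl fun u v hu hv h1 h2 => ?_⟩
    exfalso
    apply hex
    obtain ⟨t, rfl⟩ : ∃ t, v = t * u := ⟨v / u, (div_mul_cancel₀ v hu).symm⟩
    have ht : t ≠ 0 := left_ne_zero_of_mul hv
    refine ⟨t, ?_, ?_⟩
    · have : u ^ 4 * (c4 + c3 * t + c2 * t ^ 2 + c1 * t ^ 3 + c0 * t ^ 4) = 0 := by
        linear_combination (h1 + h2) / 4
      exact (mul_eq_zero.1 this).resolve_left (pow_ne_zero 4 hu)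
    · have : u ^ 4 * t * (c3 + 2 * c2 * t + 3 * c1 * t ^ 2 + 4 * c0 * t ^ 3) = 0 := by
        linear_combination h2
      exact (mul_eq_zero.1 this).resolve_left (mul_ne_zero (pow_ne_zero 4 hu) ht)

/-- The same for cubic forms: `v^2 (c0 v + c1 u)` has no critical point with `u, v ≠ 0` or is
zero. -/
theorem exists_nd3 (c0 c1 c2 c3 : ℂ) : ∃ t : ℂ,
    ND3 c0 (c1 + 3 * c0 * t) (c2 + 2 * c1 * t + 3 * c0 * t ^ 2)
      (c3 + c2 * t + c1 * t ^ 2 + c0 * t ^ 3) := by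
  by_cases hex : ∃ t : ℂ, c3 + c2 * t + c1 * t ^ 2 + c0 * t ^ 3 = 0 ∧
      c2 + 2 * c1 * t + 3 * c0 * t ^ 2 = 0
  · obtain ⟨t, h3, h2⟩ := hex
    refine ⟨t, ?_⟩
    rw [h3, h2]
    generalize c1 + 3 * c0 * t = d1
    intro u v hu hv h1 h2
    have hd1 : d1 = 0 := by
      have : u * v ^ 2 * d1 = 0 := by linear_combination h1
      exact (mul_eq_zero.1 this).resolve_left (mul_ne_zero hu (pow_ne_zero 2 hv))
    have hc0 : c0 = 0 := by
      rw [hd1] at h2
      have : 3 * v ^ 3 * c0 = 0 := by linear_combination h2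
      exact (mul_eq_zero.1 this).resolve_left (mul_ne_zero three_ne_zero (pow_ne_zero 3 hv))
    exact ⟨hc0, hd1, rfl, rfl⟩
  · refine ⟨0, fun u v hu hv h1 h2 => ?_⟩
    exfalso
    apply hex
    obtain ⟨t, rfl⟩ : ∃ t, v = t * u := ⟨v / u, (div_mul_cancel₀ v hu).symm⟩
    have ht : t ≠ 0 := left_ne_zero_of_mul hv
    refine ⟨t, ?_, ?_⟩
    · have : u ^ 3 * (c3 + c2 * t + c1 * t ^ 2 + c0 * t ^ 3) = 0 := by
        linear_combination (h1 + h2) / 3
      exact (mul_eq_zero.1 this).resolve_left (pow_ne_zero 3 hu)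
    · have : u ^ 3 * t * (c2 + 2 * c1 * t + 3 * c0 * t ^ 2) = 0 := by
        linear_combination h2
      exact (mul_eq_zero.1 this).resolve_left (mul_ne_zero (pow_ne_zero 3 hu) ht)

/-- A nonzero binary quartic form takes nonzero values at `(u, 1)` for some `u`. -/
theorem exists_ne4 {c0 c1 c2 c3 c4 : ℂ} (h : ¬ (c0 = 0 ∧ c1 = 0 ∧ c2 = 0 ∧ c3 = 0 ∧ c4 = 0)) :
    ∃ u : ℂ, c0 + c1 * u + c2 * u ^ 2 + c3 * u ^ 3 + c4 * u ^ 4 ≠ 0 := by
  by_contra hcon
  push Not at hcon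
  have h0 := hcon 0
  have h1 := hcon 1
  have h2 := hcon (-1)
  have h3 := hcon 2
  have h4 := hcon (-2)
  apply h
  refine ⟨?_, ?_, ?_, ?_, ?_⟩
  · linear_combination h0
  · linear_combination (2 / 3 : ℂ) * (h1 - h2) - (1 / 12 : ℂ) * (h3 - h4)
  · linear_combination (2 / 3 : ℂ) * (h1 + h2) - (1 / 24 : ℂ) * (h3 + h4) - (5 / 4 : ℂ) * h0
  · linear_combination (1 / 12 : ℂ) * (h3 - h4) - (1 / 6 : ℂ) * (h1 - h2)
  · linear_combination (1 / 24 : ℂ) * (h3 + h4) - (1 / 6 : ℂ) * (h1 + h2) + (1 / 4 : ℂ) * h0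

private theorem exists_quad {a b c : ℂ} (ha : a ≠ 0) : ∃ t : ℂ, a * t ^ 2 + b * t + c = 0 := by
  obtain ⟨t, ht⟩ := Complex.exists_root (f := Polynomial.C a * Polynomial.X ^ 2 +
    Polynomial.C b * Polynomial.X + Polynomial.C c) (by
      rw [Polynomial.degree_quadratic ha]
      norm_num)
  exact ⟨t, by simpa using ht⟩

/-- A cubic form `c0 v^3 + c1 u v^2 + c2 u^2 v + c3 u^3` which vanishes at no critical point but `0`
has two different zeros: after a linear change of the coordinates they are `(1, 0)`, `(0, 1)`. -/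
theorem exists_basis3 {c0 c1 c2 c3 : ℂ}
    (h : ∀ u v : ℂ, c1 * v ^ 2 + 2 * c2 * (u * v) + 3 * c3 * u ^ 2 = 0 →
      3 * c0 * v ^ 2 + 2 * c1 * (u * v) + c2 * u ^ 2 = 0 → u = 0 ∧ v = 0) :
    ∃ α β γ δ : ℂ, α * δ - β * γ ≠ 0 ∧
      c0 * γ ^ 3 + c1 * (α * γ ^ 2) + c2 * (α ^ 2 * γ) + c3 * α ^ 3 = 0 ∧
      c0 * δ ^ 3 + c1 * (β * δ ^ 2) + c2 * (β ^ 2 * δ) + c3 * β ^ 3 = 0 := by
  by_cases hc0 : c0 = 0
  · have hc1 : c1 ≠ 0 := by
      intro hc1
      have h1 := h 0 1 (by rw [hc1]; ring) (by rw [hc0]; ring)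
      exact one_ne_zero h1.2
    obtain ⟨t, ht⟩ := exists_quad (b := c2) (c := c3) hc1
    refine ⟨1, 0, t, 1, ?_, ?_, ?_⟩
    · rw [one_mul, zero_mul, sub_zero]
      exact one_ne_zero
    · rw [hc0]
      linear_combination ht
    · rw [hc0]
      ring
  · obtain ⟨t, ht⟩ := Complex.exists_root (f := Polynomial.C c0 * Polynomial.X ^ 3 +
      Polynomial.C c1 * Polynomial.X ^ 2 + Polynomial.C c2 * Polynomial.X + Polynomial.C c3) (by
        rw [Polynomial.degree_cubic hc0]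
        norm_num)
    have ht' : c0 * t ^ 3 + c1 * t ^ 2 + c2 * t + c3 = 0 := by simpa using ht
    obtain ⟨s, hs⟩ := exists_quad (b := c1 + c0 * t) (c := c2 + c1 * t + c0 * t ^ 2) hc0
    have hs' : c0 * s ^ 3 + c1 * s ^ 2 + c2 * s + c3 = 0 := by
      linear_combination (s - t) * hs + ht'
    by_cases hst : s = t
    · exfalso
      rw [hst] at hs
      have h2 : 3 * c0 * t ^ 2 + 2 * c1 * t + c2 = 0 := by linear_combination hs
      have h1 := h 1 t (by linear_combination 3 * ht' - t * h2) (by linear_combination h2)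
      exact one_ne_zero h1.1
    · refine ⟨1, 1, t, s, ?_, ?_, ?_⟩
      · rw [one_mul, one_mul]
        exact sub_ne_zero.2 hst
      · linear_combination ht'
      · linear_combination hs'

end QU

end MPb07157
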