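import Pool.Agent.Lib.MP_b07157_agQU.Defs

/-!
# Quartic polynomials with triple points: Newton non-degenerate families
-/

noncomputable section

namespace MPb07157

open MvPolynomial

namespace QU

set_option linter.unusedVariables false
set_option linter.unusedSimpArgs false
set_option linter.unusedTactic false

/-- `c = x^2 y`, `b = b4 y^4`, `x y z^2` present. -/
theorem nd_A4b {b4 a1 a2 a3 e0 e1 e2 l0 l1 k0 : ℂ} (hb4 : b4 ≠ 0) (ha1 : a1 ≠ 0)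
     (hG : ND4 0 0 e0 l0 k0) :
    SmcLoc (X 0 ^ 2 * X 1 + qf 0 0 0 0 b4 0 a1 a2 a3 e0 e1 e2 l0 l1 k0) := by
  refine smcLoc_fam3 ![![2, 1, 0], ![0, 4, 0], ![1, 1, 2], ![1, 2, 1], ![1, 3, 0], ![2, 0, 2],
      ![2, 1, 1], ![2, 2, 0], ![3, 0, 1], ![3, 1, 0], ![4, 0, 0]] (by decide)
    ![1, b4, a1, a2, a3, e0, e1, e2, l0, l1, k0] ?_ ⟨0, one_ne_zero⟩ (by decide) ?_
  · simp [qf, Fin.sum_univ_succ]
    try ring
  intro p q r m x y z T p0 q0 r0 hx hy hz hm hT hv hne s0 s1 s2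
  have m0 : m ≤ p * 2 + q * 1 + r * 0 := hm 0 one_ne_zero
  have m1 : m ≤ p * 0 + q * 4 + r * 0 := hm 1 hb4
  have m2 : m ≤ p * 1 + q * 1 + r * 2 := hm 2 ha1
  have t0 : T 0 = 0 ∨ T 0 ≠ 0 ∧ (1 : ℂ) ≠ 0 ∧ p * 2 + q * 1 + r * 0 = m := hT 0
  have t1 : T 1 = 0 ∨ T 1 ≠ 0 ∧ b4 ≠ 0 ∧ p * 0 + q * 4 + r * 0 = m := hT 1
  have t2 : T 2 = 0 ∨ T 2 ≠ 0 ∧ a1 ≠ 0 ∧ p * 1 + q * 1 + r * 2 = m := hT 2
  have t3 : T 3 = 0 ∨ T 3 ≠ 0 ∧ a2 ≠ 0 ∧ p * 1 + q * 2 + r * 1 = m := hT 3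
  have t4 : T 4 = 0 ∨ T 4 ≠ 0 ∧ a3 ≠ 0 ∧ p * 1 + q * 3 + r * 0 = m := hT 4
  have t5 : T 5 = 0 ∨ T 5 ≠ 0 ∧ e0 ≠ 0 ∧ p * 2 + q * 0 + r * 2 = m := hT 5
  have t6 : T 6 = 0 ∨ T 6 ≠ 0 ∧ e1 ≠ 0 ∧ p * 2 + q * 1 + r * 1 = m := hT 6
  have t7 : T 7 = 0 ∨ T 7 ≠ 0 ∧ e2 ≠ 0 ∧ p * 2 + q * 2 + r * 0 = m := hT 7
  have t8 : T 8 = 0 ∨ T 8 ≠ 0 ∧ l0 ≠ 0 ∧ p * 3 + q * 0 + r * 1 = m := hT 8
  have t9 : T 9 = 0 ∨ T 9 ≠ 0 ∧ l1 ≠ 0 ∧ p * 3 + q * 1 + r * 0 = m := hT 9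
  have t10 : T 10 = 0 ∨ T 10 ≠ 0 ∧ k0 ≠ 0 ∧ p * 4 + q * 0 + r * 0 = m := hT 10
  have hn : ¬ (T 0 = 0 ∧ T 1 = 0 ∧ T 2 = 0 ∧ T 3 = 0 ∧ T 4 = 0 ∧ T 5 = 0 ∧ T 6 = 0 ∧ T 7 = 0 ∧ T 8 = 0 ∧ T 9 = 0 ∧ T 10 = 0) := by
    rintro ⟨_, _, _, _, _, _, _, _, _, _, _⟩
    obtain ⟨k, hk⟩ := hne
    fin_cases k <;> exact hk (by assumption)
  have f0 : (2 : ℂ) * T 0 + (1 : ℂ) * T 2 + (1 : ℂ) * T 3 + (1 : ℂ) * T 4 + (2 : ℂ) * T 5 + (2 : ℂ) * T 6 + (2 : ℂ) * T 7 + (3 : ℂ) * T 8 + (3 : ℂ) * T 9 + (4 : ℂ) * T 10 = 0 := by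
    simpa [Fin.sum_univ_succ, add_assoc] using s0
  have f1 : (1 : ℂ) * T 0 + (4 : ℂ) * T 1 + (1 : ℂ) * T 2 + (2 : ℂ) * T 3 + (3 : ℂ) * T 4 + (1 : ℂ) * T 6 + (2 : ℂ) * T 7 + (1 : ℂ) * T 9 = 0 := by
    simpa [Fin.sum_univ_succ, add_assoc] using s1
  have f2 : (2 : ℂ) * T 2 + (1 : ℂ) * T 3 + (2 : ℂ) * T 5 + (1 : ℂ) * T 6 + (1 : ℂ) * T 8 = 0 := by
    simpa [Fin.sum_univ_succ, add_assoc] using s2
  by_cases hsp : p = r ∧ m = 4 * p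
  · obtain ⟨hsp1, hsp2⟩ := hsp
    have z1 : T 1 = 0 := by
      rcases t1 with h | ⟨_, _, h⟩
      · exact h
      · exfalso; omega
    have z2 : T 2 = 0 := by
      rcases t2 with h | ⟨_, _, h⟩
      · exact h
      · exfalso; omega
    have z3 : T 3 = 0 := by
      rcases t3 with h | ⟨_, _, h⟩
      · exact h
      · exfalso; omega
    have z4 : T 4 = 0 := by
      rcases t4 with h | ⟨_, _, h⟩
      · exact h
      · exfalso; omega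
    have z6 : T 6 = 0 := by
      rcases t6 with h | ⟨_, _, h⟩
      · exact h
      · exfalso; omega
    have z7 : T 7 = 0 := by
      rcases t7 with h | ⟨_, _, h⟩
      · exact h
      · exfalso; omega
    have z9 : T 9 = 0 := by
      rcases t9 with h | ⟨_, _, h⟩
      · exact h
      · exfalso; omega
    simp only [z1, z2, z3, z4, z6, z7, z9, mul_zero, add_zero, zero_add, true_and, and_true] at hn f0 f1 f2
    have zc : T 0 = 0 := by linear_combination f1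
    simp only [zc, mul_zero, add_zero, zero_add, true_and, and_true] at hn f0 f2
    have ve0 : T 5 = e0 * (x ^ 2 * y ^ 0 * z ^ 2) := hv 5 (by show p * 2 + q * 0 + r * 2 = m; omega)
    have vl0 : T 8 = l0 * (x ^ 3 * y ^ 0 * z ^ 1) := hv 8 (by show p * 3 + q * 0 + r * 1 = m; omega)
    have vk0 : T 10 = k0 * (x ^ 4 * y ^ 0 * z ^ 0) := hv 10 (by show p * 4 + q * 0 + r * 0 = m; omega)
    simp only [ve0, vl0, vk0] at hn f0 f2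
    have hnd := hG x z hx hz (by linear_combination f0) (by linear_combination f2)
    exfalso
    apply hn
    simp [hnd]
  clear hm hT hv hne s0 s1 s2 hx hy hz
  all_goals rcases t6 with t6 | ⟨n6, _, g6⟩
  all_goals try omega
  all_goals rcases t7 with t7 | ⟨n7, _, g7⟩
  all_goals try omega
  all_goals rcases t9 with t9 | ⟨n9, _, g9⟩
  all_goals try omega
  all_goals rcases t0 with t0 | ⟨n0, _, g0⟩
  all_goals try omega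
  all_goals rcases t1 with t1 | ⟨n1, _, g1⟩
  all_goals try omega
  all_goals rcases t2 with t2 | ⟨n2, _, g2⟩
  all_goals try omega
  all_goals rcases t3 with t3 | ⟨n3, _, g3⟩
  all_goals try omega
  all_goals rcases t4 with t4 | ⟨n4, _, g4⟩
  all_goals try omega
  all_goals rcases t5 with t5 | ⟨n5, _, g5⟩
  all_goals try omega
  all_goals rcases t8 with t8 | ⟨n8, _, g8⟩
  all_goals try omega
  all_goals rcases t10 with t10 | ⟨n10, _, g10⟩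
  all_goals try omega
  all_goals clear p0 q0 r0 m0 m1 m2
  all_goals grind

end QU

end MPb07157
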