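import Pool.Agent.Lib.MP_b07157_agQU.Mv
import Pool.Agent.Lib.MP_b07157_agQU.Bin
import Pool.Agent.Lib.MP_b07157_agQU.FBa
import Pool.Agent.Lib.MP_b07157_agQU.FBf0

/-!
# `c = x^3`, `b` or `a` without multiple factor
-/

noncomputable section

namespace MPb07157

open MvPolynomial

namespace QU

/-- The form `∑ b_j u^j v^(4-j)` has no critical point but the origin. -/
def CF4 (b0 b1 b2 b3 b4 : ℂ) : Prop :=
  ∀ u v : ℂ, b1 * v ^ 3 + 2 * b2 * (u * v ^ 2) + 3 * b3 * (u ^ 2 * v) + 4 * b4 * u ^ 3 = 0 →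
    4 * b0 * v ^ 3 + 3 * b1 * (u * v ^ 2) + 2 * b2 * (u ^ 2 * v) + b3 * u ^ 3 = 0 → u = 0 ∧ v = 0

/-- The form `∑ a_j u^j v^(3-j)` has no critical point but the origin. -/
def CF3 (a0 a1 a2 a3 : ℂ) : Prop :=
  ∀ u v : ℂ, a1 * v ^ 2 + 2 * a2 * (u * v) + 3 * a3 * u ^ 2 = 0 →
    3 * a0 * v ^ 2 + 2 * a1 * (u * v) + a2 * u ^ 2 = 0 → u = 0 ∧ v = 0

private theorem cf4_nd4 {b0 b1 b2 b3 b4 : ℂ} (hb : CF4 b0 b1 b2 b3 b4) : ND4 b0 b1 b2 b3 b4 := by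
  intro u v hu hv h1 h2
  exfalso
  refine hu (hb u v ?_ ?_).1
  · refine (mul_eq_zero.1 (?_ : u * (_ : ℂ) = 0)).resolve_left hu
    linear_combination h1
  · refine (mul_eq_zero.1 (?_ : v * (_ : ℂ) = 0)).resolve_left hv
    linear_combination h2

private theorem cf3_nd3 {a0 a1 a2 a3 : ℂ} (ha : CF3 a0 a1 a2 a3) : ND3 a0 a1 a2 a3 := by
  intro u v hu hv h1 h2
  exfalso
  refine hu (ha u v ?_ ?_).1
  · refine (mul_eq_zero.1 (?_ : u * (_ : ℂ) = 0)).resolve_left hu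
    linear_combination h1
  · refine (mul_eq_zero.1 (?_ : v * (_ : ℂ) = 0)).resolve_left hv
    linear_combination h2

private theorem cf4_ne {b0 b1 b2 b3 b4 : ℂ} (hb : CF4 b0 b1 b2 b3 b4) :
    ¬ (b0 = 0 ∧ b1 = 0 ∧ b2 = 0 ∧ b3 = 0 ∧ b4 = 0) := by
  rintro ⟨rfl, rfl, rfl, rfl, rfl⟩
  exact one_ne_zero (hb 1 1 (by ring) (by ring)).1

private theorem cf3_ne {a0 a1 a2 a3 : ℂ} (ha : CF3 a0 a1 a2 a3) :
    ¬ (a0 = 0 ∧ a1 = 0 ∧ a2 = 0 ∧ a3 = 0) := by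
  rintro ⟨rfl, rfl, rfl, rfl⟩
  exact one_ne_zero (ha 1 1 (by ring) (by ring)).1

/-- Second step of `II_a`: `b4 ≠ 0`. -/
private theorem II_a2 {b0 b1 b2 b3 b4 a0 a1 a2 a3 e0 e1 e2 l0 l1 k : ℂ}
    (hb : CF4 b0 b1 b2 b3 b4) (h4 : b4 ≠ 0) :
    SmcLoc (X 0 ^ 3 + qf b0 b1 b2 b3 b4 a0 a1 a2 a3 e0 e1 e2 l0 l1 k) := by
  obtain ⟨s, hs⟩ := exists_ne4 (cf4_ne hb)
  refine mvYz s (x3_inv3 s) (nd_Ba hs h4 (cf4_nd4 ?_))
  intro u v h1 h2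
  obtain ⟨hu, hv⟩ := hb (u + s * v) v (by linear_combination h1) (by linear_combination h2 - s * h1)
  subst hv
  exact ⟨by linear_combination hu, rfl⟩

/-- `CF4` is invariant under the moves `mvZy` and `mvYz` (a critical point `(u, v)` of
`b (u, v + s u)` gives the critical point `(u, v + s u)` of `b`) and implies that the coefficients are
not all zero (take `u = v = 1`). `mvZy s` makes `b4 ≠ 0` (`exists_ne4` for `b4, b3, b2, b1, b0`), then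
`mvYz s` makes `b0 ≠ 0` and does not change `b4` (`exists_ne4`). `CF4` implies `ND4` (there is no
critical point with `u ≠ 0`, multiply the equations of `CF4` by `u` and `v`). Then `nd_Ba`. -/
theorem II_a {b0 b1 b2 b3 b4 a0 a1 a2 a3 e0 e1 e2 l0 l1 k : ℂ} (hb : CF4 b0 b1 b2 b3 b4) :
    SmcLoc (X 0 ^ 3 + qf b0 b1 b2 b3 b4 a0 a1 a2 a3 e0 e1 e2 l0 l1 k) := by
  obtain ⟨s, hs⟩ := exists_ne4 (c0 := b4) (c1 := b3) (c2 := b2) (c3 := b1) (c4 := b0)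
    (fun h => cf4_ne hb ⟨h.2.2.2.2, h.2.2.2.1, h.2.2.1, h.2.1, h.1⟩)
  refine mvZy s (x3_inv1 s) (II_a2 ?_ hs)
  intro u v h1 h2
  obtain ⟨hu, hv⟩ := hb u (v + s * u) (by linear_combination h1 - s * h2) (by linear_combination h2)
  subst hu
  exact ⟨rfl, by linear_combination hv⟩

private theorem II_e3 {b0 b1 b2 b3 b4 a0 a1 a2 a3 e0 e1 e2 l0 l1 k : ℂ} (h0 : b0 = 0)
    (h1 : b1 = 0) (h2 : b2 = 0) (h3 : b3 = 0) (h4 : b4 = 0)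
    (ha : CF3 a0 a1 a2 a3) (ha0 : a0 ≠ 0) (ha3 : a3 ≠ 0) :
    SmcLoc (X 0 ^ 3 + qf b0 b1 b2 b3 b4 a0 a1 a2 a3 e0 e1 e2 l0 l1 k) := by
  rw [h0, h1, h2, h3, h4]
  exact nd_Bf0 ha0 ha3 (cf3_nd3 ha)

private theorem II_e2 {b0 b1 b2 b3 b4 a0 a1 a2 a3 e0 e1 e2 l0 l1 k : ℂ} (h0 : b0 = 0)
    (h1 : b1 = 0) (h2 : b2 = 0) (h3 : b3 = 0) (h4 : b4 = 0)
    (ha : CF3 a0 a1 a2 a3) (ha3 : a3 ≠ 0) :
    SmcLoc (X 0 ^ 3 + qf b0 b1 b2 b3 b4 a0 a1 a2 a3 e0 e1 e2 l0 l1 k) := by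
  obtain ⟨s, hs⟩ := exists_ne4 (c0 := a0) (c1 := a1) (c2 := a2) (c3 := a3) (c4 := 0)
    (fun h => cf3_ne ha ⟨h.1, h.2.1, h.2.2.1, h.2.2.2.1⟩)
  subst h0 h1 h2 h3 h4
  refine mvYz s (x3_inv3 s) (II_e3 (by ring) (by ring) (by ring) (by ring) rfl ?_
    (fun h => hs (by linear_combination h)) ha3)
  intro u v h1 h2
  obtain ⟨hu, hv⟩ := ha (u + s * v) v (by linear_combination h1) (by linear_combination h2 - s * h1)
  subst hv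
  exact ⟨by linear_combination hu, rfl⟩

/-- The same for `a`, with `nd_Bf0`. -/
theorem II_e {a0 a1 a2 a3 e0 e1 e2 l0 l1 k : ℂ} (ha : CF3 a0 a1 a2 a3) :
    SmcLoc (X 0 ^ 3 + qf 0 0 0 0 0 a0 a1 a2 a3 e0 e1 e2 l0 l1 k) := by
  obtain ⟨s, hs⟩ := exists_ne4 (c0 := a3) (c1 := a2) (c2 := a1) (c3 := a0) (c4 := 0)
    (fun h => cf3_ne ha ⟨h.2.2.2.1, h.2.2.1, h.2.1, h.1⟩)
  refine mvZy s (x3_inv1 s) (II_e2 rfl (by ring) (by ring) (by ring) (by ring) ?_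
    (fun h => hs (by linear_combination h)))
  intro u v h1 h2
  obtain ⟨hu, hv⟩ := ha u (v + s * u) (by linear_combination h1 - s * h2) (by linear_combination h2)
  subst hu
  exact ⟨rfl, by linear_combination hv⟩

end QU

end MPb07157
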