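import Pool.Agent.Lib.MP_b07157_agQU.Defs

/-!
# Quartic polynomials with triple points: Newton non-degenerate families
-/

noncomputable section

namespace MPb07157

open MvPolynomial

namespace QU

set_option linter.unusedVariables false
set_option linter.unusedSimpArgs false
set_option linter.unusedTactic false

/-- `c = x^3`, `b = y^2 z^2`, no `x y z^2`, `x y^2 z`. -/
theorem nd_Bc {b2 a0 a3 e0 e1 e2 l0 l1 k0 : ℂ} (hb2 : b2 ≠ 0) :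
    SmcLoc (X 0 ^ 3 + qf 0 0 b2 0 0 a0 0 0 a3 e0 e1 e2 l0 l1 k0) := by
  refine smcLoc_fam3 ![![3, 0, 0], ![0, 2, 2], ![1, 0, 3], ![1, 3, 0], ![2, 0, 2], ![2, 1, 1],
      ![2, 2, 0], ![3, 0, 1], ![3, 1, 0], ![4, 0, 0]] (by decide)
    ![1, b2, a0, a3, e0, e1, e2, l0, l1, k0] ?_ ⟨0, one_ne_zero⟩ (by decide) ?_
  · simp [qf, Fin.sum_univ_succ]
    try ring
  intro p q r m x y z T p0 q0 r0 hx hy hz hm hT hv hne s0 s1 s2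
  have m0 : m ≤ p * 3 + q * 0 + r * 0 := hm 0 one_ne_zero
  have m1 : m ≤ p * 0 + q * 2 + r * 2 := hm 1 hb2
  have t0 : T 0 = 0 ∨ T 0 ≠ 0 ∧ (1 : ℂ) ≠ 0 ∧ p * 3 + q * 0 + r * 0 = m := hT 0
  have t1 : T 1 = 0 ∨ T 1 ≠ 0 ∧ b2 ≠ 0 ∧ p * 0 + q * 2 + r * 2 = m := hT 1
  have t2 : T 2 = 0 ∨ T 2 ≠ 0 ∧ a0 ≠ 0 ∧ p * 1 + q * 0 + r * 3 = m := hT 2
  have t3 : T 3 = 0 ∨ T 3 ≠ 0 ∧ a3 ≠ 0 ∧ p * 1 + q * 3 + r * 0 = m := hT 3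
  have t4 : T 4 = 0 ∨ T 4 ≠ 0 ∧ e0 ≠ 0 ∧ p * 2 + q * 0 + r * 2 = m := hT 4
  have t5 : T 5 = 0 ∨ T 5 ≠ 0 ∧ e1 ≠ 0 ∧ p * 2 + q * 1 + r * 1 = m := hT 5
  have t6 : T 6 = 0 ∨ T 6 ≠ 0 ∧ e2 ≠ 0 ∧ p * 2 + q * 2 + r * 0 = m := hT 6
  have t7 : T 7 = 0 ∨ T 7 ≠ 0 ∧ l0 ≠ 0 ∧ p * 3 + q * 0 + r * 1 = m := hT 7
  have t8 : T 8 = 0 ∨ T 8 ≠ 0 ∧ l1 ≠ 0 ∧ p * 3 + q * 1 + r * 0 = m := hT 8
  have t9 : T 9 = 0 ∨ T 9 ≠ 0 ∧ k0 ≠ 0 ∧ p * 4 + q * 0 + r * 0 = m := hT 9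
  have hn : ¬ (T 0 = 0 ∧ T 1 = 0 ∧ T 2 = 0 ∧ T 3 = 0 ∧ T 4 = 0 ∧ T 5 = 0 ∧ T 6 = 0 ∧ T 7 = 0 ∧ T 8 = 0 ∧ T 9 = 0) := by
    rintro ⟨_, _, _, _, _, _, _, _, _, _⟩
    obtain ⟨k, hk⟩ := hne
    fin_cases k <;> exact hk (by assumption)
  have f0 : (3 : ℂ) * T 0 + (1 : ℂ) * T 2 + (1 : ℂ) * T 3 + (2 : ℂ) * T 4 + (2 : ℂ) * T 5 + (2 : ℂ) * T 6 + (3 : ℂ) * T 7 + (3 : ℂ) * T 8 + (4 : ℂ) * T 9 = 0 := by
    simpa [Fin.sum_univ_succ, add_assoc] using s0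
  have f1 : (2 : ℂ) * T 1 + (3 : ℂ) * T 3 + (1 : ℂ) * T 5 + (2 : ℂ) * T 6 + (1 : ℂ) * T 8 = 0 := by
    simpa [Fin.sum_univ_succ, add_assoc] using s1
  have f2 : (2 : ℂ) * T 1 + (3 : ℂ) * T 2 + (2 : ℂ) * T 4 + (1 : ℂ) * T 5 + (1 : ℂ) * T 7 = 0 := by
    simpa [Fin.sum_univ_succ, add_assoc] using s2
  clear hm hT hv hne s0 s1 s2 hx hy hz
  all_goals rcases t7 with t7 | ⟨n7, _, g7⟩
  all_goals try omega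
  all_goals rcases t8 with t8 | ⟨n8, _, g8⟩
  all_goals try omega
  all_goals rcases t9 with t9 | ⟨n9, _, g9⟩
  all_goals try omega
  all_goals rcases t0 with t0 | ⟨n0, _, g0⟩
  all_goals try omega
  all_goals rcases t1 with t1 | ⟨n1, _, g1⟩
  all_goals try omega
  all_goals rcases t2 with t2 | ⟨n2, _, g2⟩
  all_goals try omega
  all_goals rcases t3 with t3 | ⟨n3, _, g3⟩
  all_goals try omega
  all_goals rcases t4 with t4 | ⟨n4, _, g4⟩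
  all_goals try omega
  all_goals rcases t5 with t5 | ⟨n5, _, g5⟩
  all_goals try omega
  all_goals rcases t6 with t6 | ⟨n6, _, g6⟩
  all_goals try omega
  all_goals clear p0 q0 r0 m0 m1
  all_goals grind

end QU

end MPb07157
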