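import Pool.Agent.Lib.MP_b07157_agQU.Mv
import Pool.Agent.Lib.MP_b07157_agQU.FBe1
import Pool.Agent.Lib.MP_b07157_agQU.FBe2
import Pool.Agent.Lib.MP_b07157_agQU.FBe3

/-!
# `c = x^3`, `b = b4 y^4`
-/

noncomputable section

namespace MPb07157

open MvPolynomial

namespace QU

/-- `a0 ≠ 0`: `nd_Be1`; `a0 = 0`, `a1 ≠ 0`: `nd_Be2`; `a0 = a1 = 0`: `nd_Be3`, or `e0 ≠ 0` and
`a2 ^ 2 = 4 e0 b4`: `mvYx t` (`x3_inv4`) with `t = -a3 / (4 b4)` kills `a3` (`a2`, `e0`, `b4` do not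
change): `hX`. -/
theorem II_b4 (hX : ∀ b4 a2 e0 e1 e2 l0 l1 k : ℂ, b4 ≠ 0 → e0 ≠ 0 → a2 ^ 2 = 4 * e0 * b4 →
      SmcLoc (X 0 ^ 3 + qf 0 0 0 0 b4 0 0 a2 0 e0 e1 e2 l0 l1 k))
    {b4 a0 a1 a2 a3 e0 e1 e2 l0 l1 k : ℂ} (hb4 : b4 ≠ 0) :
    SmcLoc (X 0 ^ 3 + qf 0 0 0 0 b4 a0 a1 a2 a3 e0 e1 e2 l0 l1 k) := by
  by_cases ha0 : a0 = 0
  swap
  · exact nd_Be1 hb4 ha0
  by_cases ha1 : a1 = 0
  swap
  · rw [ha0]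
    exact nd_Be2 hb4 ha1
  rw [ha0, ha1]
  by_cases h : e0 ≠ 0 ∧ a2 ^ 2 = 4 * e0 * b4
  · refine mvYx (-a3 / (4 * b4)) (c' := X 0 ^ 3) (x3_inv4 _) ?_
    have h3 : a3 + 4 * b4 * (-a3 / (4 * b4)) = 0 := by
      field_simp
      ring
    rw [h3]
    simp only [mul_zero, zero_mul, add_zero]
    exact hX _ _ _ _ _ _ _ _ hb4 h.1 h.2
  · exact nd_Be3 hb4 fun he h' => h ⟨he, h'⟩

end QU

end MPb07157
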