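import Pool.Agent.Lib.MP_b07157_agQU.RA
import Pool.Agent.Lib.MP_b07157_agQU.RB
import Pool.Agent.Lib.MP_b07157_agQU.RC
import Pool.Agent.Lib.MP_b07157_agQU.RD
import Pool.Agent.Lib.MP_b07157_agQU.RE
import Pool.Agent.Lib.MP_b07157_agQU.RF
import Pool.Agent.Lib.MP_b07157_agQU.RG
import Pool.Agent.Lib.MP_b07157_agQU.RH
import Pool.Agent.Lib.MP_b07157_agQU.XE
import Pool.Agent.Lib.MP_b07157_agQU.CQ
import Pool.Agent.Lib.MP_b07157_agSE.Deg4

/-!
# The germs `c + q`, `c` a cubic form with a multiple factor, `q` a quartic form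
-/

noncomputable section

namespace MPb07157

open MvPolynomial

namespace QU

/-- `c = x^2 y`. -/
theorem smcLoc_I (b0 b1 b2 b3 b4 a0 a1 a2 a3 e0 e1 e2 l0 l1 k : ℂ) :
    SmcLoc (X 0 ^ 2 * X 1 + qf b0 b1 b2 b3 b4 a0 a1 a2 a3 e0 e1 e2 l0 l1 k) := by
  by_cases h0 : b0 = 0
  swap
  · exact I_b0 h0
  subst h0
  by_cases h1 : b1 = 0
  swap
  · exact I_b1 h1
  subst h1
  by_cases h2 : b2 = 0
  swap
  · by_cases ha : a0 = 0
    · subst ha
      exact I_b2b h2
    · exact I_b2a h2 ha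
  subst h2
  by_cases h3 : b3 = 0
  swap
  · exact I_b3 h3
  subst h3
  by_cases h4 : b4 = 0
  swap
  · exact I_b4 smcLoc_XI h4
  subst h4
  exact I_b

/-- `c = x^3`, `b = 0`, `a0 = a1 = 0`. -/
theorem II_00 (a2 a3 e0 e1 e2 l0 l1 k : ℂ) :
    SmcLoc (X 0 ^ 3 + qf 0 0 0 0 0 0 0 a2 a3 e0 e1 e2 l0 l1 k) := by
  by_cases h : a2 ≠ 0 ∨ a3 ≠ 0
  · exact II_a23 h
  · push Not at h
    obtain ⟨rfl, rfl⟩ := h
    exact II_g

/-- `c = x^3`, `b = 0`. -/
theorem II_0 (a0 a1 a2 a3 e0 e1 e2 l0 l1 k : ℂ) :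
    SmcLoc (X 0 ^ 3 + qf 0 0 0 0 0 a0 a1 a2 a3 e0 e1 e2 l0 l1 k) := by
  by_cases ha : CF3 a0 a1 a2 a3
  · exact II_e ha
  unfold CF3 at ha
  push Not at ha
  obtain ⟨u, v, h1, h2, h3⟩ := ha
  by_cases hv : v = 0
  · subst hv
    have hu : u ≠ 0 := fun hu => h3 hu rfl
    have ha3 : a3 = 0 := by
      have h4 : a3 * (3 * u ^ 2) = 0 := by linear_combination h1
      exact (mul_eq_zero.1 h4).resolve_right (mul_ne_zero three_ne_zero (pow_ne_zero 2 hu))
    have ha2 : a2 = 0 := by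
      have h4 : a2 * u ^ 2 = 0 := by linear_combination h2
      exact (mul_eq_zero.1 h4).resolve_right (pow_ne_zero 2 hu)
    subst ha3 ha2
    exact mvSw x3_inv5 (II_00 _ _ _ _ _ _ _ _)
  · have h4 : a1 + 2 * a2 * (u / v) + 3 * a3 * (u / v) ^ 2 = 0 := by
      field_simp
      linear_combination h1
    have h5 : 3 * a0 + 2 * a1 * (u / v) + a2 * (u / v) ^ 2 = 0 := by
      field_simp
      linear_combination h2
    have h6 : a0 + a1 * (u / v) + a2 * (u / v) ^ 2 + a3 * (u / v) ^ 3 = 0 := by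
      linear_combination (u / v) / 3 * h4 + h5 / 3
    refine mvYz (u / v) (x3_inv3 (u / v)) ?_
    rw [h4, h6]
    simp only [zero_mul, mul_zero, add_zero]
    exact II_00 _ _ _ _ _ _ _ _

/-- `c = x^3`, `b0 = b1 = 0`. -/
theorem II_bb (b2 b3 b4 a0 a1 a2 a3 e0 e1 e2 l0 l1 k : ℂ) :
    SmcLoc (X 0 ^ 3 + qf 0 0 b2 b3 b4 a0 a1 a2 a3 e0 e1 e2 l0 l1 k) := by
  by_cases h2 : b2 = 0
  swap
  · exact II_b2 h2
  subst h2
  by_cases h3 : b3 = 0
  swap
  · exact II_b3 h3
  subst h3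
  by_cases h4 : b4 = 0
  swap
  · exact II_b4 smcLoc_XII h4
  subst h4
  exact II_0 _ _ _ _ _ _ _ _ _ _

/-- `c = x^3`. -/
theorem smcLoc_II (b0 b1 b2 b3 b4 a0 a1 a2 a3 e0 e1 e2 l0 l1 k : ℂ) :
    SmcLoc (X 0 ^ 3 + qf b0 b1 b2 b3 b4 a0 a1 a2 a3 e0 e1 e2 l0 l1 k) := by
  by_cases hb : CF4 b0 b1 b2 b3 b4
  · exact II_a hb
  unfold CF4 at hb
  push Not at hb
  obtain ⟨u, v, h1, h2, h3⟩ := hb
  by_cases hv : v = 0
  · subst hv
    have hu : u ≠ 0 := fun hu => h3 hu rfl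
    have hb4 : b4 = 0 := by
      have h4 : b4 * (4 * u ^ 3) = 0 := by linear_combination h1
      exact (mul_eq_zero.1 h4).resolve_right (mul_ne_zero (by norm_num) (pow_ne_zero 3 hu))
    have hb3 : b3 = 0 := by
      have h4 : b3 * u ^ 3 = 0 := by linear_combination h2
      exact (mul_eq_zero.1 h4).resolve_right (pow_ne_zero 3 hu)
    subst hb4 hb3
    exact mvSw x3_inv5 (II_bb _ _ _ _ _ _ _ _ _ _ _ _ _)
  · have h4 : b1 + 2 * b2 * (u / v) + 3 * b3 * (u / v) ^ 2 + 4 * b4 * (u / v) ^ 3 = 0 := by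
      field_simp
      linear_combination h1
    have h5 : 4 * b0 + 3 * b1 * (u / v) + 2 * b2 * (u / v) ^ 2 + b3 * (u / v) ^ 3 = 0 := by
      field_simp
      linear_combination h2
    have h6 : b0 + b1 * (u / v) + b2 * (u / v) ^ 2 + b3 * (u / v) ^ 3 + b4 * (u / v) ^ 4 = 0 := by
      linear_combination (u / v) / 4 * h4 + h5 / 4
    refine mvYz (u / v) (x3_inv3 (u / v)) ?_
    rw [h4, h6]
    exact II_bb _ _ _ _ _ _ _ _ _ _ _ _ _

/-- **The germs `c + q`**, `c` a non-zero cubic form with a multiple factor, `q` a quartic form. -/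
theorem smcLoc_triple {f : MvPolynomial (Fin 3) ℂ} (hd : f.totalDegree ≤ 4)
    (low : ∀ j < 3, homogeneousComponent j f = 0) (h3 : homogeneousComponent 3 f ≠ 0)
    (hs : ¬ Squarefree (homogeneousComponent 3 f)) : SmcLoc f := by
  have h1 : f = homogeneousComponent 3 f + homogeneousComponent 4 f := by
    conv_lhs => rw [← sum_homogeneousComponent f]
    have h2 : ∀ j, 4 < j → homogeneousComponent j f = 0 := fun j hj =>
      homogeneousComponent_eq_zero j f (by omega)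
    have h4 : ∑ j ∈ Finset.range (f.totalDegree + 1), homogeneousComponent j f =
        ∑ j ∈ Finset.range 5, homogeneousComponent j f := by
      refine Finset.sum_subset (fun j hj => ?_) fun j _ hj => ?_
      · rw [Finset.mem_range] at hj ⊢
        omega
      · rw [Finset.mem_range] at hj
        exact homogeneousComponent_eq_zero j f (by omega)
    rw [h4, Finset.sum_range_succ, Finset.sum_range_succ, Finset.sum_eq_zero fun j hj =>
      low j (Finset.mem_range.1 hj), zero_add]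
  rw [h1]
  exact smcLoc_cq smcLoc_I smcLoc_II (homogeneousComponent_isHomogeneous 3 f) h3 hs
    (homogeneousComponent_isHomogeneous 4 f)

/-- **The strong monodromy conjecture, local version, for all polynomials of degree at most four in
three variables.** -/
theorem smcLoc_deg4 {f : MvPolynomial (Fin 3) ℂ} (hf : f ≠ 0) (h0 : coeff 0 f = 0)
    (hd : f.totalDegree ≤ 4) : SmcLoc f := by
  by_cases h : (∀ j < 3, homogeneousComponent j f = 0) → homogeneousComponent 3 f ≠ 0 →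
      Squarefree (homogeneousComponent 3 f)
  · exact SE4.smcLoc_deg4 hf h0 hd h
  · push Not at h
    obtain ⟨low, h3, hs⟩ := h
    exact smcLoc_triple hd low h3 hs

end QU

end MPb07157
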