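import Pool.Agent.Lib.MP_b07157_agE.EMain
import Pool.Agent.Lib.MP_b07157_agS.SMain

/-!
# Newton non-degenerate polynomials with explicit supports
-/

noncomputable section

namespace MPb07157

open MvPolynomial

namespace QU

/-- **A polynomial with an explicit support.** Let `F = ∑ c_k x^(E_k)` with different exponents
`E_k ≠ 0`, not all `c_k` zero. Suppose that for all weights `w > 0` and all points `u` of the torus the
terms `T_k = c_k u^(E_k)` of least weight `m` do not satisfy `∑ E_k T_k = 0`. Then the strong monodromy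
conjecture holds for the germ of `F`. -/
theorem smcLoc_fam {n K : ℕ} {F : MvPolynomial (Fin n) ℂ} (E : Fin K → Fin n → ℕ)
    (hE : Function.Injective E) (c : Fin K → ℂ) (hF : F = ∑ k, C (c k) * ∏ i, X i ^ E k i)
    (hc : ∃ k, c k ≠ 0) (h0 : ∀ k, E k ≠ 0)
    (H : ∀ (w : Fin n → ℕ) (m : ℕ) (u : Fin n → ℂ) (T : Fin K → ℂ), (∀ i, 0 < w i) →
      (∀ i, u i ≠ 0) → (∀ k, c k ≠ 0 → m ≤ ∑ i, w i * E k i) →
      (∀ k, T k = if ∑ i, w i * E k i = m then c k * ∏ i, u i ^ E k i else 0) →
      (∃ k, T k ≠ 0) → (∀ i, ∑ k, (E k i : ℂ) * T k = 0) → False) : SmcLoc F := by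
  classical
  let e : Fin K → (Fin n →₀ ℕ) := fun k => Finsupp.equivFunOnFinite.symm (E k)
  have he : Function.Injective e := fun a b hab =>
    hE (Finsupp.equivFunOnFinite.symm.injective hab)
  have hea : ∀ k i, e k i = E k i := fun k i => rfl
  have hmon : ∀ k, C (c k) * ∏ i, (X i : MvPolynomial (Fin n) ℂ) ^ E k i =
      monomial (e k) (c k) := by
    intro k
    rw [monomial_eq, Finsupp.prod_fintype _ _ (fun i => pow_zero _)]
    rfl
  have hFm : F = ∑ k, monomial (e k) (c k) := by
    rw [hF]
    exact Finset.sum_congr rfl fun k _ => hmon k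
  have hco : ∀ k, coeff (e k) F = c k := by
    intro k
    rw [hFm, coeff_sum, Finset.sum_eq_single k, coeff_monomial, if_pos rfl]
    · intro l _ hl
      rw [coeff_monomial, if_neg fun h => hl (he h)]
    · intro h
      exact absurd (Finset.mem_univ k) h
  have hsup : ∀ v ∈ F.support, ∃ k, e k = v ∧ c k ≠ 0 := by
    intro v hv
    rw [mem_support_iff, hFm, coeff_sum] at hv
    obtain ⟨k, _, hk⟩ := Finset.exists_ne_zero_of_sum_ne_zero hv
    rw [coeff_monomial] at hk
    split_ifs at hk with h1
    · exact ⟨k, h1, hk⟩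
    · exact absurd rfl hk
  obtain ⟨k0, hk0⟩ := hc
  have hF0 : F ≠ 0 := by
    intro h
    apply hk0
    rw [← hco, h, coeff_zero]
  have hc0 : coeff 0 F = 0 := by
    by_contra h
    obtain ⟨k, hk, _⟩ := hsup 0 (mem_support_iff.2 h)
    apply h0 k
    funext i
    rw [← hea, hk]
    rfl
  intro s₀ _ hp b hb
  refine eval_eq_zero_of_form hF0 hc0 (fun w hw => ?_) s₀ hp b hb
  intro u hu _
  by_contra hcon
  push Not at hcon
  obtain ⟨v0, hv0, hmin⟩ := Finset.exists_min_image F.support (fun v => ∑ j, w j * v j)
    (support_nonempty.2 hF0)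
  obtain ⟨kv, hkv, hckv⟩ := hsup v0 hv0
  obtain ⟨m, hm⟩ : ∃ m, m = ∑ j, w j * v0 j := ⟨_, rfl⟩
  refine H w m u (fun k => if ∑ i, w i * E k i = m then c k * ∏ i, u i ^ E k i else 0) hw hu
    (fun k hk => ?_) (fun k => rfl) ⟨kv, ?_⟩ fun i => ?_
  · rw [hm]
    exact hmin (e k) (mem_support_iff.2 (by rw [hco]; exact hk))
  · have h1 : ∑ i, w i * E kv i = m := by
      rw [hm, ← hkv]
      rfl
    simp only [if_pos h1]
    exact mul_ne_zero hckv (Finset.prod_ne_zero_iff.2 fun i _ => pow_ne_zero _ (hu i))
  · have h1 : eval u (X i * pderiv i (initialPart F w)) = 0 := by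
      rw [map_mul, hcon i, mul_zero]
    have hS : initialPart F w = ∑ k, monomial (e k)
        (if ∑ i, w i * E k i = m then c k else 0) := by
      ext v
      rw [coeff_sum]
      obtain ⟨S, hS1, hS2⟩ : ∃ S : Finset (Fin n →₀ ℕ),
          initialPart F w = ∑ v ∈ S, monomial v (coeff v F) ∧
          ∀ v, v ∈ S ↔ v ∈ F.support ∧ ∀ u ∈ F.support, ∑ j, w j * v j ≤ ∑ j, w j * u j :=
        ⟨_, rfl, fun v => Finset.mem_filter⟩
      rw [hS1, coeff_sum]
      simp only [coeff_monomial]
      rw [Finset.sum_ite_eq' S v fun v => coeff v F]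
      by_cases hv : ∃ k, e k = v
      · obtain ⟨k, rfl⟩ := hv
        rw [Finset.sum_eq_single k (fun l _ hl => if_neg fun h => hl (he h))
          (fun h => absurd (Finset.mem_univ k) h), if_pos rfl, hco]
        by_cases hck : c k = 0
        · rw [hck, ite_self, ite_self]
        · have h2 : e k ∈ S ↔ ∑ i, w i * E k i = m := by
            rw [hS2]
            constructor
            · rintro ⟨_, h4⟩
              refine le_antisymm ?_ ?_
              · rw [hm]
                exact h4 v0 hv0
              · rw [hm]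
                exact hmin (e k) (mem_support_iff.2 (by rw [hco]; exact hck))
            · intro h3
              refine ⟨mem_support_iff.2 (by rw [hco]; exact hck), fun x hx => ?_⟩
              have h5 := hmin x hx
              rw [← hm, ← h3] at h5
              exact h5
          simp only [h2]
      · have h2 : coeff v F = 0 := by
          by_contra h3
          obtain ⟨k, hk, _⟩ := hsup v (mem_support_iff.2 h3)
          exact hv ⟨k, hk⟩
        rw [h2, ite_self]
        symm
        refine Finset.sum_eq_zero fun k _ => ?_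
        rw [if_neg fun h => hv ⟨k, h⟩]
    rw [hS, map_sum, Finset.mul_sum, map_sum] at h1
    refine Eq.trans (Finset.sum_congr rfl fun k _ => ?_) h1
    rw [X_mul_pderiv_monomial, map_nsmul, nsmul_eq_mul, eval_monomial,
      Finsupp.prod_fintype _ _ (fun i => pow_zero _), hea]
    simp only [hea]
    split_ifs with h6
    · rfl
    · rw [zero_mul]

end QU

end MPb07157
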