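import Pool.Agent.Lib.MP_b07157_agQU.Fam

/-!
# Newton non-degenerate polynomials with explicit supports: three and five variables
-/

noncomputable section

namespace MPb07157

open MvPolynomial

namespace QU

/-- The form of `smcLoc_fam` for three variables. -/
theorem smcLoc_fam3 {K : ℕ} {F : MvPolynomial (Fin 3) ℂ} (E : Fin K → Fin 3 → ℕ)
    (hE : Function.Injective E) (c : Fin K → ℂ)
    (hF : F = ∑ k, C (c k) * (X 0 ^ E k 0 * X 1 ^ E k 1 * X 2 ^ E k 2))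
    (hc : ∃ k, c k ≠ 0) (h0 : ∀ k, E k ≠ 0)
    (H : ∀ (p q r m : ℕ) (x y z : ℂ) (T : Fin K → ℂ), 0 < p → 0 < q → 0 < r →
      x ≠ 0 → y ≠ 0 → z ≠ 0 → (∀ k, c k ≠ 0 → m ≤ p * E k 0 + q * E k 1 + r * E k 2) →
      (∀ k, T k = 0 ∨ T k ≠ 0 ∧ c k ≠ 0 ∧ p * E k 0 + q * E k 1 + r * E k 2 = m) →
      (∀ k, p * E k 0 + q * E k 1 + r * E k 2 = m →
        T k = c k * (x ^ E k 0 * y ^ E k 1 * z ^ E k 2)) →
      (∃ k, T k ≠ 0) → ∑ k, (E k 0 : ℂ) * T k = 0 → ∑ k, (E k 1 : ℂ) * T k = 0 →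
      ∑ k, (E k 2 : ℂ) * T k = 0 → False) : SmcLoc F := by
  refine smcLoc_fam E hE c (hF.trans ?_) hc h0 fun w m u T hw hu hm hT hne hs => ?_
  · refine Finset.sum_congr rfl fun k _ => ?_
    rw [Fin.prod_univ_three]
  · refine H (w 0) (w 1) (w 2) m (u 0) (u 1) (u 2) T (hw 0) (hw 1) (hw 2) (hu 0) (hu 1) (hu 2)
      (fun k hk => ?_) (fun k => ?_) (fun k hk => ?_) hne (hs 0) (hs 1) (hs 2)
    · have := hm k hk
      rwa [Fin.sum_univ_three] at this
    · have h1 := hT k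
      rw [Fin.sum_univ_three] at h1
      split_ifs at h1 with h2
      · by_cases h3 : T k = 0
        · exact Or.inl h3
        · refine Or.inr ⟨h3, fun h4 => h3 ?_, h2⟩
          rw [h1, h4, zero_mul]
      · exact Or.inl h1
    · have h1 := hT k
      rw [Fin.sum_univ_three, if_pos hk, Fin.prod_univ_three] at h1
      exact h1

end QU

end MPb07157
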