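import Pool.Agent.Lib.MP_b07157_agQU.Defs
import Pool.Agent.Lib.MP_b07157_agCS.N1

/-!
# Quartic polynomials with triple points: changes of coordinates
-/

noncomputable section

namespace MPb07157

open MvPolynomial

namespace QU

theorem smcLoc_lin {F G : MvPolynomial (Fin 3) ℂ} (M : Matrix (Fin 3) (Fin 3) ℂ) (hM : M.det ≠ 0)
    (h : ∀ x y z : ℂ, eval ![M 0 0 * x + M 0 1 * y + M 0 2 * z, M 1 0 * x + M 1 1 * y + M 1 2 * z,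
      M 2 0 * x + M 2 1 * y + M 2 2 * z] F = eval ![x, y, z] G) (hG : SmcLoc G) : SmcLoc F := by
  refine CS.LinEq.smcLoc (CS.LinEq.of_matrix M hM fun w => ?_) hG
  have h1 : w = ![w 0, w 1, w 2] := by
    funext i
    fin_cases i <;> rfl
  have h2 : M.mulVec w = ![M 0 0 * w 0 + M 0 1 * w 1 + M 0 2 * w 2,
      M 1 0 * w 0 + M 1 1 * w 1 + M 1 2 * w 2, M 2 0 * w 0 + M 2 1 * w 1 + M 2 2 * w 2] := by
    funext i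
    fin_cases i <;> simp [Matrix.mulVec, dotProduct, Fin.sum_univ_three]
  rw [h2, h, ← h1]

/-- The change of coordinates `z → z + s y`. -/
theorem mvZy (s : ℂ) {c c' : MvPolynomial (Fin 3) ℂ}
    (hc : ∀ x y z : ℂ, eval ![x, y, z + s * y] c = eval ![x, y, z] c')
    {b0 b1 b2 b3 b4 a0 a1 a2 a3 e0 e1 e2 l0 l1 k : ℂ}
    (h : SmcLoc (c' + qf b0 (b1 + 4 * b0 * s) (b2 + 3 * b1 * s + 6 * b0 * s ^ 2)
      (b3 + 2 * b2 * s + 3 * b1 * s ^ 2 + 4 * b0 * s ^ 3)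
      (b4 + b3 * s + b2 * s ^ 2 + b1 * s ^ 3 + b0 * s ^ 4) a0 (a1 + 3 * a0 * s)
      (a2 + 2 * a1 * s + 3 * a0 * s ^ 2) (a3 + a2 * s + a1 * s ^ 2 + a0 * s ^ 3) e0
      (e1 + 2 * e0 * s) (e2 + e1 * s + e0 * s ^ 2) l0 (l1 + l0 * s) k)) :
    SmcLoc (c + qf b0 b1 b2 b3 b4 a0 a1 a2 a3 e0 e1 e2 l0 l1 k) := by
  refine smcLoc_lin !![1, 0, 0; 0, 1, 0; 0, s, 1] (by simp [Matrix.det_fin_three]) ?_ h
  intro x y z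
  rw [map_add, map_add, ← hc]
  simp [qf]
  try ring

/-- The change of coordinates `z → z + s x`. -/
theorem mvZx (s : ℂ) {c c' : MvPolynomial (Fin 3) ℂ}
    (hc : ∀ x y z : ℂ, eval ![x, y, z + s * x] c = eval ![x, y, z] c')
    {b0 b1 b2 b3 b4 a0 a1 a2 a3 e0 e1 e2 l0 l1 k : ℂ}
    (h : SmcLoc (c' + qf b0 b1 b2 b3 b4 (a0 + 4 * b0 * s) (a1 + 3 * b1 * s) (a2 + 2 * b2 * s)
      (a3 + b3 * s) (e0 + 3 * a0 * s + 6 * b0 * s ^ 2) (e1 + 2 * a1 * s + 3 * b1 * s ^ 2)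
      (e2 + a2 * s + b2 * s ^ 2) (l0 + 2 * e0 * s + 3 * a0 * s ^ 2 + 4 * b0 * s ^ 3)
      (l1 + e1 * s + a1 * s ^ 2 + b1 * s ^ 3) (k + l0 * s + e0 * s ^ 2 + a0 * s ^ 3 + b0 * s ^ 4))) :
    SmcLoc (c + qf b0 b1 b2 b3 b4 a0 a1 a2 a3 e0 e1 e2 l0 l1 k) := by
  refine smcLoc_lin !![1, 0, 0; 0, 1, 0; s, 0, 1] (by simp [Matrix.det_fin_three]) ?_ h
  intro x y z
  rw [map_add, map_add, ← hc]
  simp [qf]
  try ring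

/-- The change of coordinates `y → y + s z`. -/
theorem mvYz (s : ℂ) {c c' : MvPolynomial (Fin 3) ℂ}
    (hc : ∀ x y z : ℂ, eval ![x, y + s * z, z] c = eval ![x, y, z] c')
    {b0 b1 b2 b3 b4 a0 a1 a2 a3 e0 e1 e2 l0 l1 k : ℂ}
    (h : SmcLoc (c' + qf (b0 + b1 * s + b2 * s ^ 2 + b3 * s ^ 3 + b4 * s ^ 4)
      (b1 + 2 * b2 * s + 3 * b3 * s ^ 2 + 4 * b4 * s ^ 3) (b2 + 3 * b3 * s + 6 * b4 * s ^ 2)
      (b3 + 4 * b4 * s) b4 (a0 + a1 * s + a2 * s ^ 2 + a3 * s ^ 3)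
      (a1 + 2 * a2 * s + 3 * a3 * s ^ 2) (a2 + 3 * a3 * s) a3 (e0 + e1 * s + e2 * s ^ 2)
      (e1 + 2 * e2 * s) e2 (l0 + l1 * s) l1 k)) :
    SmcLoc (c + qf b0 b1 b2 b3 b4 a0 a1 a2 a3 e0 e1 e2 l0 l1 k) := by
  refine smcLoc_lin !![1, 0, 0; 0, 1, s; 0, 0, 1] (by simp [Matrix.det_fin_three]) ?_ h
  intro x y z
  rw [map_add, map_add, ← hc]
  simp [qf]
  try ring

/-- The change of coordinates `y → y + s x`. -/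
theorem mvYx (s : ℂ) {c c' : MvPolynomial (Fin 3) ℂ}
    (hc : ∀ x y z : ℂ, eval ![x, y + s * x, z] c = eval ![x, y, z] c')
    {b0 b1 b2 b3 b4 a0 a1 a2 a3 e0 e1 e2 l0 l1 k : ℂ}
    (h : SmcLoc (c' + qf b0 b1 b2 b3 b4 (a0 + b1 * s) (a1 + 2 * b2 * s) (a2 + 3 * b3 * s)
      (a3 + 4 * b4 * s) (e0 + a1 * s + b2 * s ^ 2) (e1 + 2 * a2 * s + 3 * b3 * s ^ 2)
      (e2 + 3 * a3 * s + 6 * b4 * s ^ 2) (l0 + e1 * s + a2 * s ^ 2 + b3 * s ^ 3)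
      (l1 + 2 * e2 * s + 3 * a3 * s ^ 2 + 4 * b4 * s ^ 3)
      (k + l1 * s + e2 * s ^ 2 + a3 * s ^ 3 + b4 * s ^ 4))) :
    SmcLoc (c + qf b0 b1 b2 b3 b4 a0 a1 a2 a3 e0 e1 e2 l0 l1 k) := by
  refine smcLoc_lin !![1, 0, 0; s, 1, 0; 0, 0, 1] (by simp [Matrix.det_fin_three]) ?_ h
  intro x y z
  rw [map_add, map_add, ← hc]
  simp [qf]
  try ring


/-- Interchange of `y` and `z`. -/
theorem mvSw {c c' : MvPolynomial (Fin 3) ℂ}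
    (hc : ∀ x y z : ℂ, eval ![x, z, y] c = eval ![x, y, z] c')
    {b0 b1 b2 b3 b4 a0 a1 a2 a3 e0 e1 e2 l0 l1 k : ℂ}
    (h : SmcLoc (c' + qf b4 b3 b2 b1 b0 a3 a2 a1 a0 e2 e1 e0 l1 l0 k)) :
    SmcLoc (c + qf b0 b1 b2 b3 b4 a0 a1 a2 a3 e0 e1 e2 l0 l1 k) := by
  refine smcLoc_lin !![1, 0, 0; 0, 0, 1; 0, 1, 0] (by simp [Matrix.det_fin_three]) ?_ h
  intro x y z
  rw [map_add, map_add, ← hc]
  simp [qf]
  try ring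

/-- `z → z + s y` for `c = x^3`. -/
theorem x3_inv1 (s x y z : ℂ) : eval ![x, y, z + s * y] (X 0 ^ 3 : MvPolynomial (Fin 3) ℂ) =
    eval ![x, y, z] (X 0 ^ 3) := by simp

theorem x3_inv2 (s x y z : ℂ) : eval ![x, y, z + s * x] (X 0 ^ 3 : MvPolynomial (Fin 3) ℂ) =
    eval ![x, y, z] (X 0 ^ 3) := by simp

theorem x3_inv3 (s x y z : ℂ) : eval ![x, y + s * z, z] (X 0 ^ 3 : MvPolynomial (Fin 3) ℂ) =
    eval ![x, y, z] (X 0 ^ 3) := by simp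

theorem x3_inv4 (s x y z : ℂ) : eval ![x, y + s * x, z] (X 0 ^ 3 : MvPolynomial (Fin 3) ℂ) =
    eval ![x, y, z] (X 0 ^ 3) := by simp

theorem x3_inv5 (x y z : ℂ) : eval ![x, z, y] (X 0 ^ 3 : MvPolynomial (Fin 3) ℂ) =
    eval ![x, y, z] (X 0 ^ 3) := by simp

theorem x2y_inv1 (s x y z : ℂ) : eval ![x, y, z + s * y] (X 0 ^ 2 * X 1 : MvPolynomial (Fin 3) ℂ) =
    eval ![x, y, z] (X 0 ^ 2 * X 1) := by simp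

theorem x2y_inv2 (s x y z : ℂ) : eval ![x, y, z + s * x] (X 0 ^ 2 * X 1 : MvPolynomial (Fin 3) ℂ) =
    eval ![x, y, z] (X 0 ^ 2 * X 1) := by simp

theorem x2y_inv3 (s x y z : ℂ) : eval ![x, y + s * x, z] (X 0 ^ 2 * X 1 : MvPolynomial (Fin 3) ℂ) =
    eval ![x, y, z] (X 0 ^ 2 * X 1 + C s * X 0 ^ 3) := by
  simp
  ring

/-- `b = b0 z^2 (z - v y)^2`, `v ≠ 0`: `y → (y - z) / v`, `z → y`. -/
theorem mvU {v : ℂ} (hv : v ≠ 0) {b0 b1 b2 a0 a1 a2 a3 e0 e1 e2 l0 l1 k : ℂ}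
    (hb1 : b1 = -2 * v * b0) (hb2 : b2 = v ^ 2 * b0)
    (H : ∀ c1 c2 a0' a1' a2' a3' e0' e1' e2' l0' l1' k' : ℂ, c1 ≠ 0 → c2 ≠ 0 →
      SmcLoc (C c1 * (X 0 ^ 2 * X 1) + C c2 * (X 0 ^ 2 * X 2) +
        qf 0 0 b0 0 0 a0' a1' a2' a3' e0' e1' e2' l0' l1' k')) :
    SmcLoc (X 0 ^ 2 * X 1 + qf b0 b1 b2 0 0 a0 a1 a2 a3 e0 e1 e2 l0 l1 k) := by
  refine smcLoc_lin !![1, 0, 0; 0, 1 / v, -1 / v; 0, 1, 0] ?_ ?_
    (H (1 / v) (-1 / v) (-a3 / v ^ 3) (a2 / v ^ 2 + 3 * a3 / v ^ 3)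
      (-a1 / v - 2 * a2 / v ^ 2 - 3 * a3 / v ^ 3) (a0 + a1 / v + a2 / v ^ 2 + a3 / v ^ 3)
      (e2 / v ^ 2) (-e1 / v - 2 * e2 / v ^ 2) (e0 + e1 / v + e2 / v ^ 2)
      (-l1 / v) (l0 + l1 / v) k (by simp [hv]) (by simp [hv]))
  · simp [Matrix.det_fin_three, hv]
  · intro x y z
    simp [qf]
    subst hb1 hb2
    field_simp
    ring

end QU

end MPb07157
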